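import Mathlib

set_option autoImplicit false

open Set Filter Topology

namespace Pool.Agent.Results.MP_735b88_an.NoDifferentiableRetraction

/-- `N` is a norm on `ℝ^n` that is the maximum of finitely many linear functionals: the normed
space `(ℝ^n, N)` is a polyhedral normed space. -/
def IsPolyhedralNorm {n : ℕ} (N : (Fin n → ℝ) → ℝ) : Prop :=
  (∀ x y, N (x + y) ≤ N x + N y) ∧ (∀ (c : ℝ) (x), N (c • x) = |c| * N x) ∧
  (∀ x, N x = 0 → x = 0) ∧
  ∃ (m : ℕ) (φ : Fin m → ((Fin n → ℝ) →ₗ[ℝ] ℝ)),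
    ∀ x, IsGreatest (Set.range fun i => φ i x) (N x)

/-- `g` is nonexpansive for `N`. -/
def Nonexpansive {n : ℕ} (N : (Fin n → ℝ) → ℝ) (g : (Fin n → ℝ) → (Fin n → ℝ)) : Prop :=
  ∀ x y, N (g x - g y) ≤ N (x - y)

/-- `r` is a retraction of `ℝ^n` onto `A`. -/
def IsRetractionOnto {n : ℕ} (r : (Fin n → ℝ) → (Fin n → ℝ)) (A : Set (Fin n → ℝ)) : Prop :=
  Set.range r = A ∧ ∀ a ∈ A, r a = a

/-! ### The example -/

/-- The scalar function `t - sin t`. -/
noncomputable def phi (t : ℝ) : ℝ := t - Real.sin t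

/-- The three linear forms `x/2`, `y/2`, `-(x+y)/2`, summed after applying `phi (z + ·)`. -/
noncomputable def h (x y z : ℝ) : ℝ :=
  phi (z + x / 2) + phi (z + y / 2) + phi (z - (x + y) / 2)

/-- The map of the example. -/
noncomputable def F (p : Fin 3 → ℝ) : Fin 3 → ℝ :=
  ![p 0, p 1, p 2 / 2 + (Real.sin (p 2 + p 0 / 2) + Real.sin (p 2 + p 1 / 2)
    + Real.sin (p 2 - (p 0 + p 1) / 2)) / 6]

lemma F_two (p : Fin 3 → ℝ) : F p 2 = p 2 - h (p 0) (p 1) (p 2) / 6 := by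
  simp only [F, h, phi, Matrix.cons_val]
  ring

lemma F_zero (p : Fin 3 → ℝ) : F p 0 = p 0 := by simp [F]

lemma F_one (p : Fin 3 → ℝ) : F p 1 = p 1 := by simp [F]

lemma sin_lip (u v : ℝ) : |Real.sin u - Real.sin v| ≤ |u - v| := by
  rw [Real.sin_sub_sin, abs_mul, abs_mul]
  have h1 : |Real.cos ((u + v) / 2)| ≤ 1 := Real.abs_cos_le_one _
  have h2 : |Real.sin ((u - v) / 2)| ≤ |(u - v) / 2| := Real.abs_sin_le_abs
  have h3 : |(u - v) / 2| = |u - v| / 2 := by rw [abs_div]; norm_num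
  have h4 : |(2 : ℝ)| = 2 := by norm_num
  rw [h4]
  have h5 := abs_nonneg (Real.sin ((u - v) / 2))
  have h6 := abs_nonneg (u - v)
  rw [h3] at h2
  calc 2 * |Real.sin ((u - v) / 2)| * |Real.cos ((u + v) / 2)|
      ≤ 2 * |Real.sin ((u - v) / 2)| * 1 := by
        apply mul_le_mul_of_nonneg_left h1 (by positivity)
    _ ≤ |u - v| := by linarith

lemma phi_diff (u v : ℝ) : ∃ η : ℝ, 0 ≤ η ∧ η ≤ 2 ∧ phi u - phi v = η * (u - v) := by
  by_cases huv : u = v
  · exact ⟨0, le_rfl, by norm_num, by simp [huv]⟩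
  · have h0 : u - v ≠ 0 := sub_ne_zero.mpr huv
    have h1 := sin_lip u v
    have h2 : |(Real.sin u - Real.sin v) / (u - v)| ≤ 1 := by
      rw [abs_div]
      exact div_le_one_of_le₀ h1 (abs_nonneg _)
    rw [abs_le] at h2
    refine ⟨1 - (Real.sin u - Real.sin v) / (u - v), by linarith [h2.2], by linarith [h2.1], ?_⟩
    simp only [phi]
    field_simp
    ring

lemma phi_neg (t : ℝ) : phi (-t) = - phi t := by
  simp only [phi, Real.sin_neg]; ring

lemma phi_zero : phi 0 = 0 := by simp [phi]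

lemma phi_pos {t : ℝ} (ht : 0 < t) : 0 < phi t := by
  have := Real.sin_lt ht
  simp only [phi]; linarith

lemma continuous_phi : Continuous phi := by
  unfold phi
  fun_prop

lemma nonexpansive_F (p q : Fin 3 → ℝ) : ‖F p - F q‖ ≤ ‖p - q‖ := by
  rw [pi_norm_le_iff_of_nonneg (norm_nonneg _)]
  have hx : |p 0 - q 0| ≤ ‖p - q‖ := by simpa using norm_le_pi_norm (p - q) 0
  have hy : |p 1 - q 1| ≤ ‖p - q‖ := by simpa using norm_le_pi_norm (p - q) 1
  have hz : |p 2 - q 2| ≤ ‖p - q‖ := by simpa using norm_le_pi_norm (p - q) 2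
  intro i
  fin_cases i
  · simpa [F] using hx
  · simpa [F] using hy
  · show ‖F p 2 - F q 2‖ ≤ ‖p - q‖
    rw [F_two, F_two, Real.norm_eq_abs]
    obtain ⟨a, ha0, ha2, ha⟩ := phi_diff (p 2 + p 0 / 2) (q 2 + q 0 / 2)
    obtain ⟨b, hb0, hb2, hb⟩ := phi_diff (p 2 + p 1 / 2) (q 2 + q 1 / 2)
    obtain ⟨c, hc0, hc2, hc⟩ := phi_diff (p 2 - (p 0 + p 1) / 2) (q 2 - (q 0 + q 1) / 2)
    have key : p 2 - h (p 0) (p 1) (p 2) / 6 - (q 2 - h (q 0) (q 1) (q 2) / 6)
        = (p 2 - q 2) * (1 - (a + b + c) / 6)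
          - (a * ((p 0 - q 0) / 2) + b * ((p 1 - q 1) / 2)
            - c * ((p 0 - q 0) / 2 + (p 1 - q 1) / 2)) / 6 := by
      have : h (p 0) (p 1) (p 2) - h (q 0) (q 1) (q 2)
          = a * (p 2 + p 0 / 2 - (q 2 + q 0 / 2)) + b * (p 2 + p 1 / 2 - (q 2 + q 1 / 2))
            + c * (p 2 - (p 0 + p 1) / 2 - (q 2 - (q 0 + q 1) / 2)) := by
        rw [← ha, ← hb, ← hc]
        simp only [h]; ring
      linear_combination (-1 / 6) * this
    rw [key]
    set D := ‖p - q‖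
    set X := p 0 - q 0
    set Y := p 1 - q 1
    set Z := p 2 - q 2
    rw [abs_le] at hx hy hz ⊢
    have hs : 0 ≤ 1 - (a + b + c) / 6 := by linarith
    have m1 := mul_le_mul_of_nonneg_left hz.2 hs
    have m2 := mul_le_mul_of_nonneg_left hz.1 hs
    have a1 := mul_le_mul_of_nonneg_left hx.2 ha0
    have a2 := mul_le_mul_of_nonneg_left hx.1 ha0
    have b1 := mul_le_mul_of_nonneg_left hy.2 hb0
    have b2 := mul_le_mul_of_nonneg_left hy.1 hb0
    have c1 := mul_le_mul_of_nonneg_left hx.2 hc0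
    have c2 := mul_le_mul_of_nonneg_left hx.1 hc0
    have d1 := mul_le_mul_of_nonneg_left hy.2 hc0
    have d2 := mul_le_mul_of_nonneg_left hy.1 hc0
    have D0 : 0 ≤ D := norm_nonneg _
    have e1 := mul_nonneg ha0 D0
    have e2 := mul_nonneg hb0 D0
    have e3 := mul_nonneg hc0 D0
    constructor <;> nlinarith

lemma mem_fixed_iff (p : Fin 3 → ℝ) :
    p ∈ Function.fixedPoints F ↔ h (p 0) (p 1) (p 2) = 0 := by
  rw [Function.mem_fixedPoints_iff]
  constructor
  · intro hp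
    have := congrFun hp 2
    rw [F_two] at this
    linarith
  · intro hp
    funext i
    fin_cases i
    · exact F_zero p
    · exact F_one p
    · show F p 2 = p 2
      rw [F_two, hp]; ring

lemma analytic_F : AnalyticOnNhd ℝ F univ := by
  have hproj : ∀ i : Fin 3, AnalyticOnNhd ℝ (fun p : Fin 3 → ℝ => p i) univ := fun i =>
    (ContinuousLinearMap.proj (R := ℝ) (φ := fun _ : Fin 3 => ℝ) i).analyticOnNhd univ
  have hs : ∀ g : (Fin 3 → ℝ) → ℝ, AnalyticOnNhd ℝ g univ →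
      AnalyticOnNhd ℝ (fun p => Real.sin (g p)) univ := fun g hg p hp =>
    Real.analyticAt_sin.comp (hg p hp)
  have hc : ∀ c : ℝ, AnalyticOnNhd ℝ (fun _ : Fin 3 → ℝ => c) univ := fun c =>
    analyticOnNhd_const
  have h2 : AnalyticOnNhd ℝ (fun p : Fin 3 → ℝ => p 2 / 2 + (Real.sin (p 2 + p 0 / 2)
      + Real.sin (p 2 + p 1 / 2) + Real.sin (p 2 - (p 0 + p 1) / 2)) / 6) univ := by
    have t2 : ∀ x ∈ (univ : Set (Fin 3 → ℝ)), (2 : ℝ) ≠ 0 := fun _ _ => two_ne_zero
    have t6 : ∀ x ∈ (univ : Set (Fin 3 → ℝ)), (6 : ℝ) ≠ 0 := fun _ _ => by norm_num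
    exact ((hproj 2).div (hc 2) t2).add
      ((((hs _ ((hproj 2).add ((hproj 0).div (hc 2) t2))).add
        (hs _ ((hproj 2).add ((hproj 1).div (hc 2) t2)))).add
        (hs _ ((hproj 2).sub (((hproj 0).add (hproj 1)).div (hc 2) t2)))).div (hc 6) t6)
  have key : AnalyticOnNhd ℝ (fun p i => F p i) univ := by
    apply AnalyticOnNhd.pi
    intro i
    fin_cases i
    · exact (hproj 0).congr isOpen_univ (fun p _ => (F_zero p).symm)
    · exact (hproj 1).congr isOpen_univ (fun p _ => (F_one p).symm)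
    · exact h2.congr isOpen_univ (fun p _ => by simp [F])
  exact key

lemma polyhedral_sup : IsPolyhedralNorm (fun x : Fin 3 → ℝ => ‖x‖) := by
  refine ⟨fun x y => norm_add_le x y, fun c x => by simp [norm_smul], fun x hx => by simpa using hx,
    6, ![LinearMap.proj 0, LinearMap.proj 1, LinearMap.proj 2,
      -LinearMap.proj 0, -LinearMap.proj 1, -LinearMap.proj 2], fun x => ⟨?_, ?_⟩⟩
  · obtain ⟨i, hi⟩ : ∃ i : Fin 3, ‖x i‖ = ‖x‖ := by
      by_contra hcon
      push Not at hcon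
      have hlt : ∀ i, ‖x i‖ < ‖x‖ := fun i => lt_of_le_of_ne (norm_le_pi_norm x i) (hcon i)
      have hpos : 0 < ‖x‖ := lt_of_le_of_lt (norm_nonneg _) (hlt 0)
      exact lt_irrefl _ ((pi_norm_lt_iff hpos).mpr hlt)
    rcases le_total 0 (x i) with h0 | h0
    · rw [Real.norm_of_nonneg h0] at hi
      refine ⟨Fin.castLE (by norm_num) i, ?_⟩
      show _ = ‖x‖
      rw [← hi]
      fin_cases i <;> simp
    · rw [Real.norm_of_nonpos h0] at hi
      refine ⟨Fin.natAdd 3 i, ?_⟩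
      show _ = ‖x‖
      rw [← hi]
      fin_cases i <;> simp
  · rintro _ ⟨i, rfl⟩
    have hb : ∀ j : Fin 3, x j ≤ ‖x‖ ∧ -x j ≤ ‖x‖ := fun j => by
      have := norm_le_pi_norm x j
      rw [Real.norm_eq_abs, abs_le] at this
      constructor <;> linarith [this.1, this.2]
    fin_cases i
    · simpa using (hb 0).1
    · simpa using (hb 1).1
    · simpa using (hb 2).1
    · simpa using (hb 0).2
    · simpa using (hb 1).2
    · simpa using (hb 2).2

/-- On the diagonal `x = y = 2t` the fixed point has height between `t/4` and `2t`. -/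
lemma exists_diag {t : ℝ} (ht : 0 < t) (ht2 : t ≤ 1 / 2) :
    ∃ z, t / 4 ≤ z ∧ z ≤ 2 * t ∧ h (2 * t) (2 * t) z = 0 := by
  have hcont : ContinuousOn (fun z => h (2 * t) (2 * t) z) (Icc (t / 4) (2 * t)) := by
    have := continuous_phi
    unfold h
    fun_prop
  have hlow : h (2 * t) (2 * t) (t / 4) ≤ 0 := by
    have e1 : h (2 * t) (2 * t) (t / 4) = 2 * phi (5 * t / 4) - phi (7 * t / 4) := by
      have : phi (t / 4 - (2 * t + 2 * t) / 2) = - phi (7 * t / 4) := by
        rw [← phi_neg]; congr 1; ring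
      unfold h
      rw [this]
      have e2 : t / 4 + 2 * t / 2 = 5 * t / 4 := by ring
      rw [e2]; ring
    rw [e1]
    have b1 : phi (5 * t / 4) ≤ (5 * t / 4) ^ 3 / 6 := by
      have := Real.sin_gt_sub_cube (x := 5 * t / 4) (by positivity)
      simp only [phi]; linarith
    have b2 : (7 * t / 4) ^ 3 / 6 - (7 * t / 4) ^ 5 / 100 ≤ phi (7 * t / 4) := by
      have h1 : |7 * t / 4| ≤ 1 := by
        rw [abs_of_pos (by positivity)]; linarith
      have := Real.sin_bound h1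
      rw [abs_of_pos (show (0 : ℝ) < 7 * t / 4 by positivity), abs_le] at this
      simp only [phi]; linarith [this.2]
    have b3 : 0 < t ^ 3 := by positivity
    have b4 : t ^ 5 ≤ t ^ 3 * (1 / 4) := by
      have : t ^ 5 = t ^ 3 * t ^ 2 := by ring
      rw [this]
      apply mul_le_mul_of_nonneg_left _ b3.le
      nlinarith
    nlinarith
  have hhigh : 0 ≤ h (2 * t) (2 * t) (2 * t) := by
    have e1 : h (2 * t) (2 * t) (2 * t) = 2 * phi (3 * t) := by
      have : 2 * t - (2 * t + 2 * t) / 2 = 0 := by ring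
      unfold h
      rw [this, phi_zero]
      have e2 : 2 * t + 2 * t / 2 = 3 * t := by ring
      rw [e2]; ring
    rw [e1]
    have := phi_pos (t := 3 * t) (by positivity)
    linarith
  obtain ⟨z, hz, hz0⟩ := intermediate_value_Icc (by linarith) hcont ⟨hlow, hhigh⟩
  exact ⟨z, hz.1, hz.2, hz0⟩

lemma line_fixed {r : (Fin 3 → ℝ) → (Fin 3 → ℝ)} {L : (Fin 3 → ℝ) →L[ℝ] (Fin 3 → ℝ)}
    (hr : ∀ a ∈ Function.fixedPoints F, r a = a) (hL : HasFDerivAt r L 0) (v : Fin 3 → ℝ)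
    (hv : ∀ s : ℝ, s • v ∈ Function.fixedPoints F) : L v = v := by
  have h1 : HasDerivAt (fun s : ℝ => s • v) v 0 := by
    simpa using (hasDerivAt_id (0 : ℝ)).smul_const v
  have h2 : HasDerivAt (fun s : ℝ => r (s • v)) (L v) 0 := by
    have hL' : HasFDerivAt r L ((0 : ℝ) • v) := by simpa using hL
    exact hL'.comp_hasDerivAt (0 : ℝ) h1
  have h3 : (fun s : ℝ => r (s • v)) = fun s : ℝ => s • v := by
    funext s; exact hr _ (hv s)
  rw [h3] at h2
  exact h2.unique h1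

lemma no_retraction (r : (Fin 3 → ℝ) → (Fin 3 → ℝ))
    (hr : IsRetractionOnto r (Function.fixedPoints F)) : ¬ DifferentiableAt ℝ r 0 := by
  intro hd
  obtain ⟨L, hL⟩ := hd
  have hr1 := hr.2
  have L0 : L ![1, 0, 0] = ![1, 0, 0] := by
    refine line_fixed hr1 hL _ fun s => ?_
    rw [mem_fixed_iff]
    simp [h, phi_zero, phi_neg]
  have L1 : L ![0, 1, 0] = ![0, 1, 0] := by
    refine line_fixed hr1 hL _ fun s => ?_
    rw [mem_fixed_iff]
    simp [h, phi_zero, phi_neg]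
  have zero_mem : (0 : Fin 3 → ℝ) ∈ Function.fixedPoints F := by
    rw [mem_fixed_iff]; simp [h, phi_zero]
  have r0 : r 0 = 0 := hr1 _ zero_mem
  -- the little-o estimate
  have hlo : ∀ ε : ℝ, 0 < ε → ∃ δ : ℝ, 0 < δ ∧ ∀ x : Fin 3 → ℝ, ‖x‖ < δ →
      ‖r x - L x‖ ≤ ε * ‖x‖ := by
    intro ε hε
    have := (hasFDerivAt_iff_isLittleO_nhds_zero.mp hL).def hε
    rw [Metric.eventually_nhds_iff] at this
    obtain ⟨δ, hδ, hx⟩ := this
    refine ⟨δ, hδ, fun x hxδ => ?_⟩
    have := hx (y := x) (by simpa using hxδ)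
    simpa [r0] using this
  have L2 : L ![0, 0, 1] = ![0, 0, 1] := by
    by_contra hne
    have hpos : 0 < ‖(![0, 0, 1] : Fin 3 → ℝ) - L ![0, 0, 1]‖ :=
      norm_pos_iff.mpr (sub_ne_zero.mpr (Ne.symm hne))
    set c := ‖(![0, 0, 1] : Fin 3 → ℝ) - L ![0, 0, 1]‖ with hc
    obtain ⟨δ, hδ, hx⟩ := hlo (c / 16) (by positivity)
    set t := min (1 / 2) (δ / 4) with ht
    have ht0 : 0 < t := lt_min (by norm_num) (by positivity)
    have ht1 : t ≤ 1 / 2 := min_le_left _ _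
    have ht2 : t ≤ δ / 4 := min_le_right _ _
    obtain ⟨z, hz1, hz2, hz⟩ := exists_diag ht0 ht1
    have hfix : (![2 * t, 2 * t, z] : Fin 3 → ℝ) ∈ Function.fixedPoints F := by
      rw [mem_fixed_iff]; simpa using hz
    have hnorm : ‖(![2 * t, 2 * t, z] : Fin 3 → ℝ)‖ ≤ 2 * t := by
      rw [pi_norm_le_iff_of_nonneg (by positivity)]
      intro i
      fin_cases i
      · simp [abs_of_pos ht0]
      · simp [abs_of_pos ht0]
      · show ‖z‖ ≤ 2 * t
        rw [Real.norm_of_nonneg (by linarith)]; exact hz2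
    have h1 := hx ![2 * t, 2 * t, z] (by linarith)
    rw [hr1 _ hfix] at h1
    have hdec : (![2 * t, 2 * t, z] : Fin 3 → ℝ)
        = (2 * t) • ![1, 0, 0] + (2 * t) • ![0, 1, 0] + z • ![0, 0, 1] := by
      funext i; fin_cases i <;> simp
    have hLd : (![2 * t, 2 * t, z] : Fin 3 → ℝ) - L ![2 * t, 2 * t, z]
        = z • ((![0, 0, 1] : Fin 3 → ℝ) - L ![0, 0, 1]) := by
      rw [hdec]
      simp only [map_add, map_smul, L0, L1, smul_sub]
      abel
    rw [hLd, norm_smul, ← hc, Real.norm_of_nonneg (by linarith : (0 : ℝ) ≤ z)] at h1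
    have h2 : c / 16 * ‖(![2 * t, 2 * t, z] : Fin 3 → ℝ)‖ ≤ c / 16 * (2 * t) :=
      mul_le_mul_of_nonneg_left hnorm (by positivity)
    have h3 : t / 4 * c ≤ z * c := mul_le_mul_of_nonneg_right hz1 hpos.le
    nlinarith [mul_pos ht0 hpos]
  obtain ⟨δ, hδ, hx⟩ := hlo (1 / 4) (by norm_num)
  set t := δ / 2 with ht
  have ht0 : 0 < t := by positivity
  have hn : ‖t • (![0, 0, 1] : Fin 3 → ℝ)‖ = t := by
    rw [norm_smul, Real.norm_of_nonneg ht0.le]
    have : ‖(![0, 0, 1] : Fin 3 → ℝ)‖ = 1 := by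
      apply le_antisymm
      · rw [pi_norm_le_iff_of_nonneg (by norm_num)]
        intro i; fin_cases i <;> simp
      · simpa using norm_le_pi_norm (![0, 0, 1] : Fin 3 → ℝ) 2
    rw [this, mul_one]
  have h1 := hx (t • ![0, 0, 1]) (by rw [hn]; linarith)
  rw [hn, map_smul, L2] at h1
  set q := r (t • ![0, 0, 1]) with hq
  have hqmem : q ∈ Function.fixedPoints F := by
    rw [← hr.1]; exact ⟨_, rfl⟩
  rw [mem_fixed_iff] at hqmem
  have c0 := norm_le_pi_norm (q - t • ![0, 0, 1]) 0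
  have c1 := norm_le_pi_norm (q - t • ![0, 0, 1]) 1
  have c2 := norm_le_pi_norm (q - t • ![0, 0, 1]) 2
  simp only [Pi.sub_apply, Pi.smul_apply, Matrix.cons_val, smul_eq_mul, mul_zero, sub_zero,
    mul_one, Real.norm_eq_abs] at c0 c1 c2
  have d0 := abs_le.mp (c0.trans h1)
  have d1 := abs_le.mp (c1.trans h1)
  have d2 := abs_le.mp (c2.trans h1)
  have p0 := phi_pos (t := q 2 + q 0 / 2) (by linarith [d0.1, d2.1])
  have p1 := phi_pos (t := q 2 + q 1 / 2) (by linarith [d1.1, d2.1])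
  have p2 := phi_pos (t := q 2 - (q 0 + q 1) / 2) (by linarith [d0.2, d1.2, d2.1])
  have : 0 < h (q 0) (q 1) (q 2) := by unfold h; linarith
  linarith

/-- There are a polyhedral normed space and a nonexpansive real analytic self-map `f` of it with
a fixed point `p` such that no retraction onto `Fix f` (nonexpansive or not) is differentiable
at `p`. -/
theorem result :
    ∃ n : ℕ, 1 ≤ n ∧ ∃ (N : (Fin n → ℝ) → ℝ) (f : (Fin n → ℝ) → (Fin n → ℝ)),
      IsPolyhedralNorm N ∧ Nonexpansive N f ∧ AnalyticOnNhd ℝ f Set.univ ∧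
      ∃ p ∈ Function.fixedPoints f,
        ∀ r : (Fin n → ℝ) → (Fin n → ℝ),
          IsRetractionOnto r (Function.fixedPoints f) → ¬ DifferentiableAt ℝ r p := by
  refine ⟨3, by norm_num, fun x => ‖x‖, F, polyhedral_sup, nonexpansive_F, analytic_F, 0, ?_,
    no_retraction⟩
  rw [mem_fixed_iff]; simp [h, phi_zero]

end Pool.Agent.Results.MP_735b88_an.NoDifferentiableRetraction
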